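import Pool.Agent.H340B.Main
import Pool.Agent.Helper244.Br.Final

/-!
# The signless Brouwer inequality from a two-colouring of the vertices

Let `G` be a finite simple graph with a colouring `c` of the vertices with two colours (no condition),
let `d(v)` be the number of neighbours of `v` with the colour of `v`, and let `e'` be the number
of the monochromatic edges. If twice the sum of any `k` of the numbers `d(v)` is at most `e'`, then
the sum of any `k` eigenvalues of the signless Laplacian `D + A` is at most `m + k (k + 1) / 2`. For a bipartite graph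
(and a proper colouring `c`) the condition is void.

Proof. A change of signs on one colour class turns the quadratic form of the signless Laplacian of the bichromatic
subgraph into that of its Laplacian, so Brouwer's inequality (the starting theorem `Pool.Br.brouwer_finset`) and Ky Fan's
principle bound its contribution by the number of bichromatic edges plus `k (k + 1) / 2`. The contribution
of the monochromatic edges is at most `2 ∑ d(v) μ(v)` with `0 ≤ μ ≤ 1` and `∑ μ = k`.
-/

set_option autoImplicit false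

open Finset

namespace Pool.Agent.Results.MP_8cfe6a_co.CutCriterion

open Pool.Agent.H340B

variable {n : ℕ}

/-- The number of neighbours of `v` that have the same colour as `v`. -/
def monoDeg (G : SimpleGraph (Fin n)) [DecidableRel G.Adj] (c : Fin n → Bool) (v : Fin n) : ℕ :=
  (univ.filter fun w => G.Adj v w ∧ c w = c v).card

/-- The subgraph of the bichromatic edges. -/
def cutG (G : SimpleGraph (Fin n)) (c : Fin n → Bool) : SimpleGraph (Fin n) where
  Adj i j := G.Adj i j ∧ c j ≠ c i
  symm := ⟨fun _ _ h => ⟨h.1.symm, h.2.symm⟩⟩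
  loopless := ⟨fun i h => G.loopless.irrefl i h.1⟩

open Classical in
/-- Brouwer's inequality for orthonormal frames. -/
theorem frames_lap (H : SimpleGraph (Fin n)) (k : ℕ) (hk : 1 ≤ k) (v : Fin k → Fin n → ℝ)
    (hv : Frame k v) :
    ∑ a, qf (lap (H.adjMatrix ℝ)) (v a) ≤ total (H.adjMatrix ℝ) + (k : ℝ) * (k + 1) / 2 := by
  rw [lap_adj, total_adj]
  refine kyfan _ (H.isHermitian_lapMatrix ℝ) k hk _ (fun t ht => ?_) v hv
  have h := Pool.Br.brouwer_finset H t
  rw [ht] at h
  refine h.trans (le_of_eq ?_)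
  ring

theorem deg_eq (G : SimpleGraph (Fin n)) [DecidableRel G.Adj] (i : Fin n) :
    (G.degree i : ℝ) = ∑ j, (if G.Adj i j then (1 : ℝ) else 0) := by
  rw [← SimpleGraph.card_neighborFinset_eq_degree, SimpleGraph.neighborFinset_eq_filter,
    Finset.card_filter]
  push_cast
  rfl

theorem edges_eq (G : SimpleGraph (Fin n)) [DecidableRel G.Adj] :
    ∑ i, ∑ j, (if G.Adj i j then (1 : ℝ) else 0) = 2 * (G.edgeFinset.card : ℝ) := by
  have h := G.sum_degrees_eq_twice_card_edges
  have h' : ∑ v, (G.degree v : ℝ) = 2 * (G.edgeFinset.card : ℝ) := by exact_mod_cast h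
  rw [← h']
  exact Finset.sum_congr rfl fun i _ => (deg_eq G i).symm

/-- the quadratic form of the signless Laplacian -/
theorem qf_signless (G : SimpleGraph (Fin n)) [DecidableRel G.Adj] (x : Fin n → ℝ) :
    qf (G.degMatrix ℝ + G.adjMatrix ℝ) x
      = (∑ i, ∑ j, (if G.Adj i j then (x i + x j) ^ 2 else 0)) / 2 := by
  have h1 : qf (G.degMatrix ℝ + G.adjMatrix ℝ) x
      = ∑ i, ∑ j, (if G.Adj i j then x i ^ 2 + x i * x j else 0) := by
    unfold qf
    refine Finset.sum_congr rfl fun i _ => ?_
    have e1 : ∀ j, (G.degMatrix ℝ + G.adjMatrix ℝ) i j * x i * x j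
        = (if i = j then (G.degree i : ℝ) * x i ^ 2 else 0)
          + (if G.Adj i j then x i * x j else 0) := by
      intro j
      rw [Matrix.add_apply, add_mul, add_mul]
      congr 1
      · unfold SimpleGraph.degMatrix
        rw [Matrix.diagonal_apply]
        split_ifs with h
        · rw [← h]; ring
        · simp
      · rw [SimpleGraph.adjMatrix_apply]
        split_ifs <;> simp
    rw [Finset.sum_congr rfl fun j _ => e1 j, Finset.sum_add_distrib, Finset.sum_ite_eq,
      if_pos (Finset.mem_univ i), deg_eq G i, Finset.sum_mul, ← Finset.sum_add_distrib]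
    refine Finset.sum_congr rfl fun j _ => ?_
    split_ifs <;> ring
  have h2 : ∑ i, ∑ j, (if G.Adj i j then x i ^ 2 + x i * x j else 0)
      = ∑ i, ∑ j, (if G.Adj i j then x j ^ 2 + x i * x j else 0) := by
    rw [Finset.sum_comm]
    refine Finset.sum_congr rfl fun i _ => Finset.sum_congr rfl fun j _ => ?_
    by_cases h : G.Adj i j
    · rw [if_pos h, if_pos h.symm]; ring
    · rw [if_neg h, if_neg (fun h' => h h'.symm)]
  have h3 : ∑ i, ∑ j, (if G.Adj i j then (x i + x j) ^ 2 else 0)
      = ∑ i, ∑ j, (if G.Adj i j then x i ^ 2 + x i * x j else 0)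
        + ∑ i, ∑ j, (if G.Adj i j then x j ^ 2 + x i * x j else 0) := by
    rw [← Finset.sum_add_distrib]
    refine Finset.sum_congr rfl fun i _ => ?_
    rw [← Finset.sum_add_distrib]
    refine Finset.sum_congr rfl fun j _ => ?_
    split_ifs <;> ring
  rw [h3, ← h2, h1]
  ring

/-- the contribution of the monochromatic edges -/
theorem mono_le (G : SimpleGraph (Fin n)) [DecidableRel G.Adj] (c : Fin n → Bool) (x : Fin n → ℝ) :
    ∑ i, ∑ j, (if G.Adj i j ∧ c j = c i then (x i + x j) ^ 2 else 0)
      ≤ 4 * ∑ i, (x i) ^ 2 * (monoDeg G c i : ℝ) := by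
  have h1 : ∀ i, (monoDeg G c i : ℝ) = ∑ j, (if G.Adj i j ∧ c j = c i then (1 : ℝ) else 0) := by
    intro i
    unfold monoDeg
    rw [Finset.card_filter]
    push_cast
    rfl
  have h2 : ∑ i, ∑ j, (if G.Adj i j ∧ c j = c i then x i ^ 2 else 0)
      = ∑ i, (x i) ^ 2 * (monoDeg G c i : ℝ) := by
    refine Finset.sum_congr rfl fun i _ => ?_
    rw [h1, Finset.mul_sum]
    refine Finset.sum_congr rfl fun j _ => ?_
    split_ifs <;> ring
  have h3 : ∑ i, ∑ j, (if G.Adj i j ∧ c j = c i then x j ^ 2 else 0)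
      = ∑ i, (x i) ^ 2 * (monoDeg G c i : ℝ) := by
    rw [← h2, Finset.sum_comm]
    refine Finset.sum_congr rfl fun i _ => Finset.sum_congr rfl fun j _ => ?_
    have : (G.Adj j i ∧ c i = c j) ↔ (G.Adj i j ∧ c j = c i) :=
      ⟨fun h => ⟨h.1.symm, h.2.symm⟩, fun h => ⟨h.1.symm, h.2.symm⟩⟩
    simp only [this]
  have h4 : ∑ i, ∑ j, (if G.Adj i j ∧ c j = c i then (x i + x j) ^ 2 else 0)
      ≤ 2 * ∑ i, ∑ j, (if G.Adj i j ∧ c j = c i then x i ^ 2 else 0)
        + 2 * ∑ i, ∑ j, (if G.Adj i j ∧ c j = c i then x j ^ 2 else 0) := by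
    rw [Finset.mul_sum, Finset.mul_sum, ← Finset.sum_add_distrib]
    refine Finset.sum_le_sum fun i _ => ?_
    rw [Finset.mul_sum, Finset.mul_sum, ← Finset.sum_add_distrib]
    refine Finset.sum_le_sum fun j _ => ?_
    split_ifs
    · nlinarith [sq_nonneg (x i - x j)]
    · simp
  rw [h2, h3] at h4
  linarith

/-- the sign of a colour class -/
noncomputable def sg (c : Fin n → Bool) (i : Fin n) : ℝ := if c i = true then 1 else -1

theorem sg_sq (c : Fin n → Bool) (i : Fin n) : sg c i * sg c i = 1 := by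
  unfold sg
  split_ifs <;> norm_num

theorem sg_ne {c : Fin n → Bool} {i j : Fin n} (h : c j ≠ c i) : sg c i * sg c j = -1 := by
  unfold sg
  cases hi : c i <;> cases hj : c j <;> simp_all

open Classical in
/-- the splitting of the quadratic form -/
theorem split (G : SimpleGraph (Fin n)) [DecidableRel G.Adj] (c : Fin n → Bool) (x : Fin n → ℝ) :
    qf (G.degMatrix ℝ + G.adjMatrix ℝ) x
      = qf (lap ((cutG G c).adjMatrix ℝ)) (fun i => sg c i * x i)
        + (∑ i, ∑ j, (if G.Adj i j ∧ c j = c i then (x i + x j) ^ 2 else 0)) / 2 := by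
  rw [qf_signless, qf_lap (adj_weighted (cutG G c)), ← add_div, ← Finset.sum_add_distrib]
  congr 1
  refine Finset.sum_congr rfl fun i _ => ?_
  rw [← Finset.sum_add_distrib]
  refine Finset.sum_congr rfl fun j _ => ?_
  rw [SimpleGraph.adjMatrix_apply]
  by_cases h : G.Adj i j
  · by_cases hc : c j = c i
    · have h1 : ¬ (cutG G c).Adj i j := fun h' => h'.2 hc
      rw [if_pos h, if_neg h1, if_pos ⟨h, hc⟩]
      ring
    · have h1 : (cutG G c).Adj i j := ⟨h, hc⟩
      rw [if_pos h, if_pos h1, if_neg (fun h' => hc h'.2)]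
      have h2 := sg_sq c i
      have h3 := sg_sq c j
      have h4 := sg_ne hc
      have : (sg c i * x i - sg c j * x j) ^ 2
          = (sg c i * sg c i) * x i ^ 2 - 2 * (sg c i * sg c j) * (x i * x j)
            + (sg c j * sg c j) * x j ^ 2 := by ring
      rw [this, h2, h3, h4]
      ring
  · have h1 : ¬ (cutG G c).Adj i j := fun h' => h h'.1
    rw [if_neg h, if_neg h1, if_neg (fun h' => h h'.1)]
    ring

theorem frames_signless (G : SimpleGraph (Fin n)) [DecidableRel G.Adj] (c : Fin n → Bool)
    (k : ℕ) (hk : 1 ≤ k) (h : ∀ t : Finset (Fin n), t.card = k →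
      4 * ∑ v ∈ t, monoDeg G c v ≤ ∑ v, monoDeg G c v)
    (v : Fin k → Fin n → ℝ) (hv : Frame k v) :
    ∑ a, qf (G.degMatrix ℝ + G.adjMatrix ℝ) (v a)
      ≤ (G.edgeFinset.card : ℝ) + (k : ℝ) * ((k : ℝ) + 1) / 2 := by
  classical
  -- the frame with changed signs
  have hy : Frame k (fun a i => sg c i * v a i) := by
    intro a b
    rw [← hv a b]
    refine Finset.sum_congr rfl fun i _ => ?_
    have : sg c i * v a i * (sg c i * v b i) = (sg c i * sg c i) * (v a i * v b i) := by ring
    rw [this, sg_sq, one_mul]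
  have h1 := frames_lap (cutG G c) k hk _ hy
  -- the weights
  set μ : Fin n → ℝ := fun i => ∑ a, (v a i) ^ 2 with hμ
  have hμ0 : ∀ i, 0 ≤ μ i := fun i => Finset.sum_nonneg fun a _ => sq_nonneg _
  have hμ1 : ∀ i, μ i ≤ 1 := by
    intro i
    have hb := bessel v hv (fun j => if j = i then 1 else 0)
    simpa [hμ] using hb
  have hμs : ∑ i, μ i = k := by
    simp only [hμ]
    rw [Finset.sum_comm]
    have : ∀ a, ∑ i, (v a i) ^ 2 = 1 := by
      intro a
      have := hv a a
      rw [if_pos rfl] at this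
      rw [← this]
      exact Finset.sum_congr rfl fun i _ => sq _
    simp [this]
  have hS : ∑ i, ∑ j, (if G.Adj i j ∧ c j = c i then (1 : ℝ) else 0)
      = ∑ i, (monoDeg G c i : ℝ) := by
    refine Finset.sum_congr rfl fun i _ => ?_
    unfold monoDeg
    rw [Finset.card_filter]
    push_cast
    rfl
  have h2 := lp_lemma k hk (fun i => (monoDeg G c i : ℝ)) μ
    ((∑ i, (monoDeg G c i : ℝ)) / 4) (fun t ht => by
      have := h t ht
      have h' : (4 : ℝ) * ∑ v ∈ t, (monoDeg G c v : ℝ) ≤ ∑ v, (monoDeg G c v : ℝ) := by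
        exact_mod_cast this
      linarith) hμ0 hμ1 hμs
  have h3 : ∑ a, (∑ i, ∑ j, (if G.Adj i j ∧ c j = c i then (v a i + v a j) ^ 2 else 0)) / 2
      ≤ (∑ i, (monoDeg G c i : ℝ)) / 2 := by
    have e1 : ∑ a, (∑ i, ∑ j, (if G.Adj i j ∧ c j = c i then (v a i + v a j) ^ 2 else 0)) / 2
        ≤ ∑ a, 2 * ∑ i, (v a i) ^ 2 * (monoDeg G c i : ℝ) :=
      Finset.sum_le_sum fun a _ => by
        have := mono_le G c (v a)
        linarith
    have e2 : ∑ a, 2 * ∑ i, (v a i) ^ 2 * (monoDeg G c i : ℝ)
        = 2 * ∑ i, μ i * (monoDeg G c i : ℝ) := by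
      rw [← Finset.mul_sum, Finset.sum_comm]
      congr 1
      refine Finset.sum_congr rfl fun i _ => ?_
      rw [hμ, Finset.sum_mul]
    linarith
  have h4 : total ((cutG G c).adjMatrix ℝ) + (∑ i, (monoDeg G c i : ℝ)) / 2
      = (G.edgeFinset.card : ℝ) := by
    rw [total_eq (adj_weighted (cutG G c)), ← hS, ← add_div, ← Finset.sum_add_distrib]
    have e : ∑ i, (∑ j, ((cutG G c).adjMatrix ℝ) i j
        + ∑ j, (if G.Adj i j ∧ c j = c i then (1 : ℝ) else 0))
        = ∑ i, ∑ j, (if G.Adj i j then (1 : ℝ) else 0) := by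
      refine Finset.sum_congr rfl fun i _ => ?_
      rw [← Finset.sum_add_distrib]
      refine Finset.sum_congr rfl fun j _ => ?_
      rw [SimpleGraph.adjMatrix_apply]
      by_cases hA : G.Adj i j
      · by_cases hc : c j = c i
        · rw [if_neg (fun h' : (cutG G c).Adj i j => h'.2 hc), if_pos ⟨hA, hc⟩, if_pos hA]
          norm_num
        · rw [if_pos (show (cutG G c).Adj i j from ⟨hA, hc⟩), if_neg (fun h' => hc h'.2),
            if_pos hA]
          norm_num
      · rw [if_neg (fun h' : (cutG G c).Adj i j => hA h'.1), if_neg (fun h' => hA h'.1),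
          if_neg hA]
        norm_num
    rw [e, edges_eq]
    ring
  have h5 : ∑ a, qf (G.degMatrix ℝ + G.adjMatrix ℝ) (v a)
      = ∑ a, qf (lap ((cutG G c).adjMatrix ℝ)) (fun i => sg c i * v a i)
        + ∑ a, (∑ i, ∑ j, (if G.Adj i j ∧ c j = c i then (v a i + v a j) ^ 2 else 0)) / 2 := by
    rw [← Finset.sum_add_distrib]
    exact Finset.sum_congr rfl fun a _ => split G c (v a)
  rw [h5]
  linarith

/-- Let `c` be any colouring of the vertices of `G` with two colours, and let `monoDeg G c v` be the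
number of neighbours of `v` with the same colour as `v`. Let `s` be a set of `k` indices. If four times
the sum of any `k` of the numbers `monoDeg G c v` is at most the sum of all these numbers (which is twice the
number of the monochromatic edges), then the sum of the eigenvalues of the signless Laplacian with
indices in `s` is at most `m + k (k + 1) / 2`. -/
theorem result (n : ℕ) (G : SimpleGraph (Fin n)) [DecidableRel G.Adj] (c : Fin n → Bool)
    (hQ : (G.degMatrix ℝ + G.adjMatrix ℝ).IsHermitian) (s : Finset (Fin n))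
    (h : ∀ t : Finset (Fin n), t.card = s.card →
      4 * ∑ v ∈ t, monoDeg G c v ≤ ∑ v, monoDeg G c v) :
    ∑ i ∈ s, hQ.eigenvalues i
      ≤ (G.edgeFinset.card : ℝ) + (s.card : ℝ) * ((s.card : ℝ) + 1) / 2 := by
  rcases Nat.eq_zero_or_pos s.card with h0 | hk
  · rw [Finset.card_eq_zero] at h0
    subst h0
    simp
  · exact eig_le_of_frames _ hQ s.card _ (frames_signless G c s.card hk h) s rfl

end Pool.Agent.Results.MP_8cfe6a_co.CutCriterion
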