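import Pool.Agent.H340B.Signless

/-!
# The signless Brouwer inequality for dense graphs

For `3 k ≥ 2 n + 1` the inequality holds for all graphs (file `TopThird`, by the complement). For
smaller `k` the trivial bound for the complement is enough if the graph is dense.
-/

set_option autoImplicit false

namespace Pool.Agent.Results.MP_8cfe6a_co.DenseGraphs

/-- Let `G` be a finite simple graph with `n ≥ 4` vertices and `m` edges such that
`9 m ≥ 4 n² - 6 n` (equivalently, the complement has at most `n (n + 3) / 18` edges). Then the
inequality of Q1 holds for all `k`: any `k` eigenvalues (with multiplicity) of the signless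
Laplacian `Q = D + A` sum to at most `m + k (k + 1) / 2`. -/
theorem result :
    ∀ (V : Type) [Fintype V] [DecidableEq V] (G : SimpleGraph V) [DecidableRel G.Adj]
      (hQ : (G.degMatrix ℝ + G.adjMatrix ℝ).IsHermitian), 4 ≤ Fintype.card V →
      4 * Fintype.card V ^ 2 ≤ 9 * G.edgeFinset.card + 6 * Fintype.card V →
      ∀ s : Finset V,
      ∑ i ∈ s, hQ.eigenvalues i
        ≤ (G.edgeFinset.card : ℝ) + (s.card : ℝ) * ((s.card : ℝ) + 1) / 2 := by
  intro V _ _ G _ hQ hn hm s
  rcases Nat.eq_zero_or_pos s.card with h0 | h0
  · have hs : s = ∅ := Finset.card_eq_zero.1 h0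
    subst hs
    simp
  by_cases hk : 2 * Fintype.card V + 1 ≤ 3 * s.card
  · have h := Pool.Agent.H340B.Signless.sum_le_core G hQ s
    have hk' : 2 * (Fintype.card V : ℝ) + 1 ≤ 3 * (s.card : ℝ) := by exact_mod_cast hk
    linarith
  · have h := Pool.Agent.H340B.Signless.sum_le_trivial G hQ s
    have key : 2 * Fintype.card V * (s.card + 1) ≤ 2 * G.edgeFinset.card + s.card * (s.card + 5) := by
      clear h
      generalize Fintype.card V = n at *
      generalize s.card = k at *
      generalize G.edgeFinset.card = m at *
      have hk2 : 3 * k ≤ 2 * n := by omega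
      rcases Nat.lt_or_ge n 8 with h8 | h8
      · have hk3 : k ≤ 4 := by omega
        interval_cases n <;> interval_cases k <;> omega
      · zify at *
        nlinarith [mul_nonneg (sub_nonneg.2 hk2) (by linarith : (0 : ℤ) ≤ 4 * n - 15 - 3 * k)]
    have key' : 2 * (Fintype.card V : ℝ) * ((s.card : ℝ) + 1)
        ≤ 2 * (G.edgeFinset.card : ℝ) + (s.card : ℝ) * ((s.card : ℝ) + 5) := by exact_mod_cast key
    linarith

end Pool.Agent.Results.MP_8cfe6a_co.DenseGraphs
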