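import Pool.Agent.H340B.SignlessCut

/-!
# The signless Brouwer inequality for graphs with a small edge cut

Delete the cut: the `k` eigenvalues are then shared by the two sides, `k = k₁ + k₂`. If both `kᵢ`
are positive, the product `k₁ k₂` pays for the additive errors `1 / 2` of the starting inequality
on the two sides and for the cut edges; if one of them is zero, the edges of that side do.
-/

set_option autoImplicit false

namespace Pool.Agent.Results.MP_8cfe6a_co.SmallCut

/-- Let `G` be a graph on `n` vertices with `m` edges, and divide its vertices into two sides (those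
which satisfy `p` and those which do not) such that exactly `e` edges of `G` join the two sides and
at least `e + 1` edges lie inside each side. Then for every `k` with `k ≤ 1` or `k ≥ e + 2`, any
`k` eigenvalues (with multiplicity) of the signless Laplacian `Q = D + A` sum to at most
`m + k (k + 1) / 2`. For `e = 0` this is all `k`: the inequality of Q1 holds for all graphs with at
least two components that have an edge. -/
theorem result :
    ∀ (n : ℕ) (G : SimpleGraph (Fin n)) [DecidableRel G.Adj]
      (hQ : (G.degMatrix ℝ + G.adjMatrix ℝ).IsHermitian)
      (p : Fin n → Prop) [DecidablePred p] (e : ℕ),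
      G.edgeFinset.card = (G.comap (Subtype.val : {x // p x} → Fin n)).edgeFinset.card
        + (G.comap (Subtype.val : {x // ¬ p x} → Fin n)).edgeFinset.card + e →
      e + 1 ≤ (G.comap (Subtype.val : {x // p x} → Fin n)).edgeFinset.card →
      e + 1 ≤ (G.comap (Subtype.val : {x // ¬ p x} → Fin n)).edgeFinset.card →
      ∀ s : Finset (Fin n), s.card ≤ 1 ∨ e + 2 ≤ s.card →
      ∑ i ∈ s, hQ.eigenvalues i
        ≤ (G.edgeFinset.card : ℝ) + (s.card : ℝ) * ((s.card : ℝ) + 1) / 2 := by
  intro n G _ hQ p _ e he h₁ h₂ s hk
  exact Pool.Agent.H340B.SignlessCut.bound G p hQ s e he h₁ h₂ hk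

end Pool.Agent.Results.MP_8cfe6a_co.SmallCut
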