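import Pool.Agent.H340B.Signless

/-!
# The signless Brouwer inequality for the upper third of the indices

The proof passes to the complement: if `P` is the projection onto the span of the chosen
eigenvectors of `Q = D + A` and `R = 1 - P`, then the quantity to be bounded for `(G, P)` is an
explicit number plus the same quantity for `(complement of G, R)`, to which the inequality with the
additive error `1 / 2` (starting file `Pool.Agent.Y339.SB.Core`) is applied.
-/

set_option autoImplicit false

namespace Pool.Agent.Results.MP_8cfe6a_co.TopThird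

/-- Let `G` be a finite simple graph with `n` vertices and `m` edges, and let `S` be the sum of
any `k` eigenvalues (with multiplicity) of its signless Laplacian `Q = D + A`, in particular of the
`k` largest. Then `S ≤ m + k (k - 1) / 2 + 2 (n - k) + 1 / 2`. Consequently
`S ≤ m + k (k + 1) / 2`, the inequality of Q1, holds for all graphs whenever `3 k ≥ 2 n + 1`. -/
theorem result :
    ∀ (V : Type) [Fintype V] [DecidableEq V] (G : SimpleGraph V) [DecidableRel G.Adj]
      (hQ : (G.degMatrix ℝ + G.adjMatrix ℝ).IsHermitian) (s : Finset V),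
      ∑ i ∈ s, hQ.eigenvalues i ≤ (G.edgeFinset.card : ℝ) + (s.card : ℝ) * ((s.card : ℝ) - 1) / 2
        + 2 * ((Fintype.card V : ℝ) - s.card) + 1 / 2 ∧
      (2 * Fintype.card V + 1 ≤ 3 * s.card →
        ∑ i ∈ s, hQ.eigenvalues i
          ≤ (G.edgeFinset.card : ℝ) + (s.card : ℝ) * ((s.card : ℝ) + 1) / 2) := by
  intro V _ _ G _ hQ s
  have h := Pool.Agent.H340B.Signless.sum_le_core G hQ s
  refine ⟨h, fun hk => ?_⟩
  have hk' : 2 * (Fintype.card V : ℝ) + 1 ≤ 3 * (s.card : ℝ) := by exact_mod_cast hk
  linarith

end Pool.Agent.Results.MP_8cfe6a_co.TopThird
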